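import Pool.Agent.Helper27.VF.Goals

/-!
# Packet VF-TOD: the torso of the locally finite graph
-/

set_option autoImplicit false

namespace Pool.Agent.Helper76.VF

open Pool.Agent.Helper27.VF

universe u

theorem out_mono {W : Type u} {G G₀ : SimpleGraph W} {K : Set W} (hle : G₀ ≤ G) {x z : W}
    (h : Out G₀ K x z) : Out G K x z := by
  unfold Out at h ⊢
  induction h with
  | refl => exact Relation.ReflTransGen.refl
  | tail _ hbc ih => exact Relation.ReflTransGen.tail ih ⟨hle hbc.1, hbc.2⟩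

theorem out_rev {W : Type u} {G : SimpleGraph W} {K : Set W} {y z : W} (h : Out G K y z) :
    z = y ∨ (z ∉ K ∧ ∃ z', Out G K z z' ∧ G.Adj z' y) := by
  unfold Out at h
  induction h with
  | refl => exact Or.inl rfl
  | @tail b c _ hbc ih =>
    right
    refine ⟨hbc.2, ?_⟩
    rcases ih with rfl | ⟨hb, z', hz', hadj⟩
    · exact ⟨c, Relation.ReflTransGen.refl, hbc.1.symm⟩
    · exact ⟨z', Relation.ReflTransGen.head ⟨hbc.1.symm, hb⟩ hz', hadj⟩

/-- the relation of the torso is symmetric -/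
theorem rel_symm {W : Type u} {G : SimpleGraph W} {K : Set W} {x y : W}
    (h : ∃ z, Out G K y z ∧ G.Adj z x) : ∃ z, Out G K x z ∧ G.Adj z y := by
  obtain ⟨z, hz, hzx⟩ := h
  rcases out_rev hz with rfl | ⟨hzK, z', hz', hadj⟩
  · exact ⟨x, Relation.ReflTransGen.refl, hzx.symm⟩
  · exact ⟨z', Relation.ReflTransGen.head ⟨hzx.symm, hzK⟩ hz', hadj⟩

theorem out_mem {W : Type u} {G : SimpleGraph W} {K : Set W} {x z : W} (h : Out G K x z)
    (hz : z ∈ K) : x = z := by
  unfold Out at h
  cases h with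
  | refl => rfl
  | tail _ hbc => exact absurd hz hbc.2

theorem reach {W : Type u} {G : SimpleGraph W} {K : Set W} {a b : W} (q : G.Walk a b) :
    ∀ (x : K) (hb : b ∈ K), Out G K x a → (TG G K).Reachable x ⟨b, hb⟩ := by
  induction q with
  | nil =>
    intro x hb hx
    have : x = ⟨_, hb⟩ := Subtype.ext (out_mem hx hb)
    rw [this]
  | @cons a c b h q ih =>
    intro x hb hx
    by_cases hc : c ∈ K
    · have h2 := ih ⟨c, hc⟩ hb Relation.ReflTransGen.refl
      by_cases hxc : x = ⟨c, hc⟩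
      · rw [hxc]; exact h2
      · have h1 : (TG G K).Adj x ⟨c, hc⟩ := by
          unfold TG
          rw [SimpleGraph.fromRel_adj]
          exact ⟨hxc, Or.inl ⟨a, hx, h⟩⟩
        exact h1.reachable.trans h2
    · exact ih x hb (Relation.ReflTransGen.tail hx ⟨h, hc⟩)

theorem tod : TodStmt.{u} := by
  intro W G G₀ K hle hN hconn hK hlf
  refine ⟨?_, ?_, ?_⟩
  · intro x y hxy
    unfold TG at hxy ⊢
    rw [SimpleGraph.fromRel_adj] at hxy ⊢
    refine ⟨hxy.1, ?_⟩
    rcases hxy.2 with ⟨z, h1, h2⟩ | ⟨z, h1, h2⟩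
    · exact Or.inl ⟨z, out_mono hle h1, hle h2⟩
    · exact Or.inr ⟨z, out_mono hle h1, hle h2⟩
  · have hne : Nonempty K := hK.to_subtype
    refine SimpleGraph.Connected.mk ?_
    intro x y
    obtain ⟨q⟩ := hconn.preconnected (x : W) (y : W)
    exact reach q x y.2 Relation.ReflTransGen.refl
  · intro x
    have hfin : ({y | G₀.Adj x y} ∪ ⋃ q ∈ {q | G₀.Adj x q ∧ q ∉ K},
        {y | y ∈ K ∧ ∃ z', Out G K q z' ∧ G.Adj z' y}).Finite := by
      refine (hlf x).union (Set.Finite.biUnion ((hlf x).subset fun q hq => hq.1) ?_)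
      intro q hq
      exact hN q hq.2
    refine (hfin.preimage (f := fun y : K => (y : W)) Subtype.val_injective.injOn).subset ?_
    intro y hy
    have hxy : ∃ z, Out G₀ K x z ∧ G₀.Adj z y := by
      have hy' : (TG G₀ K).Adj x y := hy
      unfold TG at hy'
      rw [SimpleGraph.fromRel_adj] at hy'
      rcases hy'.2 with h | h
      · exact h
      · exact rel_symm h
    obtain ⟨z, hz, hzy⟩ := hxy
    unfold Out at hz
    rcases Relation.ReflTransGen.cases_head hz with rfl | ⟨q, hq, hqz⟩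
    · exact Or.inl hzy
    · right
      refine Set.mem_biUnion (x := q) ⟨hq.1, hq.2⟩ ?_
      exact ⟨y.2, z, out_mono hle hqz, hle hzy⟩

end Pool.Agent.Helper76.VF
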